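import Pool.Agent.H24.LV.TargetsM

/-!
# Row AS of lvp_modules: convergence from self-comparison
-/

set_option autoImplicit false

open Finset MeasureTheory Filter Topology

namespace Pool.Agent.H61.LVP

open Pool.Agent.H24.CL Pool.Agent.H24.LV

/-- one base point, all scales -/
theorem core_one (L : ℕ → ℝ) (hm : Monotone L) (u c C : ℝ) (hu : 0 < u)
    (hC : 0 ≤ C)
    (h : ∀ N : ℕ, 1 ≤ N → L ⌊(N : ℝ) ^ u⌋₊ - L ⌊(N : ℝ) ^ (u / 2)⌋₊ ≤ C * (N : ℝ) ^ (-c))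
    (N : ℕ) (hN : 2 ≤ N) (ht : (N : ℝ) ^ (-c) ≤ 1 / 2) (Q : ℕ) :
    L Q ≤ L ⌊(N : ℝ) ^ (u / 2)⌋₊ + 2 * C * (N : ℝ) ^ (-c) := by
  have hN0 : (0 : ℝ) < N := by
    have : (0 : ℕ) < N := by omega
    exact_mod_cast this
  have hN1 : (1 : ℝ) < N := by exact_mod_cast hN
  set t : ℝ := (N : ℝ) ^ (-c) with htdef
  have ht0 : 0 ≤ t := (Real.rpow_pos_of_pos hN0 _).le
  have key : ∀ J : ℕ, L ⌊((N ^ 2 ^ J : ℕ) : ℝ) ^ (u / 2)⌋₊ ≤ L ⌊(N : ℝ) ^ (u / 2)⌋₊ +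
      C * t * ∑ j ∈ range J, (1 / 2 : ℝ) ^ j := by
    intro J
    induction J with
    | zero => simp
    | succ J ih =>
      have h1 := h (N ^ 2 ^ J) (Nat.one_le_pow _ _ (by omega))
      have h2 : ((N ^ 2 ^ J : ℕ) : ℝ) ^ u = ((N ^ 2 ^ (J + 1) : ℕ) : ℝ) ^ (u / 2) := by
        push_cast
        rw [pow_succ, pow_mul, ← Real.rpow_natCast ((N : ℝ) ^ 2 ^ J) 2, ← Real.rpow_mul (by positivity)]
        congr 1
        push_cast
        ring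
      rw [h2] at h1
      have h3 : ((N ^ 2 ^ J : ℕ) : ℝ) ^ (-c) ≤ t * (1 / 2) ^ J := by
        have e1 : ((N ^ 2 ^ J : ℕ) : ℝ) ^ (-c) = t ^ 2 ^ J := by
          rw [htdef]
          push_cast
          rw [← Real.rpow_natCast, ← Real.rpow_natCast, ← Real.rpow_mul hN0.le,
            ← Real.rpow_mul hN0.le, mul_comm]
        rw [e1]
        calc t ^ 2 ^ J ≤ t ^ (J + 1) := pow_le_pow_of_le_one ht0 (by linarith) Nat.lt_two_pow_self
          _ = t * t ^ J := by ring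
          _ ≤ t * (1 / 2) ^ J := by gcongr
      rw [sum_range_succ, mul_add]
      have h4 := mul_le_mul_of_nonneg_left h3 hC
      linarith
  obtain ⟨J, hJ⟩ := pow_unbounded_of_one_lt (Q : ℝ)
    (Real.one_lt_rpow hN1 (by linarith : (0 : ℝ) < u / 2))
  have hQ : Q ≤ ⌊((N ^ 2 ^ J : ℕ) : ℝ) ^ (u / 2)⌋₊ := by
    refine Nat.le_floor ?_
    have e2 : ((N ^ 2 ^ J : ℕ) : ℝ) ^ (u / 2) = ((N : ℝ) ^ (u / 2)) ^ 2 ^ J := by
      push_cast
      rw [← Real.rpow_natCast, ← Real.rpow_natCast, ← Real.rpow_mul hN0.le,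
        ← Real.rpow_mul hN0.le, mul_comm]
    rw [e2]
    refine hJ.le.trans ?_
    exact pow_le_pow_right₀ (Real.one_lt_rpow hN1 (by linarith : (0 : ℝ) < u / 2)).le
      Nat.lt_two_pow_self.le
  have hs : ∑ j ∈ range J, (1 / 2 : ℝ) ^ j ≤ 2 := by
    have := geom_sum_eq (by norm_num : (1 / 2 : ℝ) ≠ 1) J
    rw [this]
    have : (0 : ℝ) ≤ (1 / 2 : ℝ) ^ J := by positivity
    rw [div_le_iff_of_neg (by norm_num)]
    linarith
  have h5 : C * t * ∑ j ∈ range J, (1 / 2 : ℝ) ^ j ≤ C * t * 2 :=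
    mul_le_mul_of_nonneg_left hs (mul_nonneg hC ht0)
  linarith [hm hQ, key J]

/-- all base points -/
theorem core (L : ℕ → ℝ) (hm : Monotone L) (h0 : ∀ n, 0 ≤ L n) (u c C : ℝ) (hu : 0 < u)
    (hc : 0 < c)
    (h : ∀ N : ℕ, 1 ≤ N → L ⌊(N : ℝ) ^ u⌋₊ - L ⌊(N : ℝ) ^ (u / 2)⌋₊ ≤ C * (N : ℝ) ^ (-c)) :
    ∃ C' : ℝ, 0 ≤ C' ∧ ∀ N : ℕ, 1 ≤ N → ∀ Q : ℕ,
      L Q ≤ L ⌊(N : ℝ) ^ (u / 2)⌋₊ + C' * (N : ℝ) ^ (-c) := by
  have hC : 0 ≤ C := by
    have := h 1 le_rfl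
    simpa using this
  obtain ⟨N₀, hN₀2, hN₀⟩ : ∃ N₀ : ℕ, 2 ≤ N₀ ∧ (N₀ : ℝ) ^ (-c) ≤ 1 / 2 := by
    have h1 : Tendsto (fun N : ℕ => (N : ℝ) ^ (-c)) atTop (𝓝 0) :=
      (tendsto_rpow_neg_atTop hc).comp tendsto_natCast_atTop_atTop
    have h2 := (h1.eventually (ge_mem_nhds (by norm_num : (0 : ℝ) < 1 / 2))).and
      (eventually_ge_atTop 2)
    obtain ⟨N₀, hN₀, hN₀2⟩ := h2.exists
    exact ⟨N₀, hN₀2, hN₀⟩
  have hN₀r : (0 : ℝ) < N₀ := by
    have : 0 < N₀ := by omega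
    exact_mod_cast this
  set B : ℝ := L ⌊(N₀ : ℝ) ^ (u / 2)⌋₊ + 2 * C * (N₀ : ℝ) ^ (-c) with hB
  have hB0 : 0 ≤ B := by
    have := h0 ⌊(N₀ : ℝ) ^ (u / 2)⌋₊
    have := Real.rpow_pos_of_pos hN₀r (-c)
    positivity
  have hBQ : ∀ Q, L Q ≤ B := core_one L hm u c C hu hC h N₀ hN₀2 hN₀
  refine ⟨2 * C + B * (N₀ : ℝ) ^ c, by positivity, ?_⟩
  intro N hN Q
  have hNr : (0 : ℝ) < N := by exact_mod_cast hN
  have hp : 0 < (N : ℝ) ^ (-c) := Real.rpow_pos_of_pos hNr _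
  have hp0 : 0 < (N₀ : ℝ) ^ c := Real.rpow_pos_of_pos hN₀r _
  rcases Nat.lt_or_ge N N₀ with hlt | hge
  · have h1 : 1 ≤ (N₀ : ℝ) ^ c * (N : ℝ) ^ (-c) := by
      rw [Real.rpow_neg hNr.le, ← div_eq_mul_inv, one_le_div (Real.rpow_pos_of_pos hNr _)]
      exact Real.rpow_le_rpow hNr.le (by exact_mod_cast hlt.le) hc.le
    have h2 : B ≤ B * ((N₀ : ℝ) ^ c * (N : ℝ) ^ (-c)) := le_mul_of_one_le_right hB0 h1
    have h3 := hBQ Q
    have h4 := h0 ⌊(N : ℝ) ^ (u / 2)⌋₊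
    have h5 : 0 ≤ 2 * C * (N : ℝ) ^ (-c) := by positivity
    calc L Q ≤ B := h3
      _ ≤ B * ((N₀ : ℝ) ^ c * (N : ℝ) ^ (-c)) := h2
      _ ≤ L ⌊(N : ℝ) ^ (u / 2)⌋₊ + (2 * C * (N : ℝ) ^ (-c) +
            B * ((N₀ : ℝ) ^ c * (N : ℝ) ^ (-c))) := by linarith
      _ = _ := by ring
  · have h1 : (N : ℝ) ^ (-c) ≤ 1 / 2 := by
      refine le_trans ?_ hN₀
      exact Real.rpow_le_rpow_of_nonpos hN₀r (by exact_mod_cast hge) (by linarith)
    have h2 := core_one L hm u c C hu hC h N (by omega) h1 Q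
    have h3 : 0 ≤ B * (N₀ : ℝ) ^ c * (N : ℝ) ^ (-c) := by positivity
    calc L Q ≤ L ⌊(N : ℝ) ^ (u / 2)⌋₊ + 2 * C * (N : ℝ) ^ (-c) := h2
      _ ≤ L ⌊(N : ℝ) ^ (u / 2)⌋₊ + (2 * C * (N : ℝ) ^ (-c) +
            B * (N₀ : ℝ) ^ c * (N : ℝ) ^ (-c)) := by linarith
      _ = _ := by ring

/-! ### the two factors -/

theorem e_cont : Continuous e := by
  unfold e
  exact continuous_subtype_val.comp AddCircle.continuous_toCircle

theorem vI_cont {k : ℕ} : Continuous (vI : (Fin k → ℝ) → ℂ) := by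
  unfold vI
  refine intervalIntegral.continuous_parametric_intervalIntegral_of_continuous' ?_ 0 1
  refine e_cont.comp ?_
  refine continuous_quotient_mk'.comp ?_
  refine continuous_finsetSum _ fun i _ => ?_
  exact ((continuous_apply i).comp continuous_fst).mul (continuous_snd.pow _)

theorem vI_zero {k : ℕ} : vI (0 : Fin k → ℝ) = 1 := by
  unfold vI
  have : ∀ x : ℝ, e ((∑ i : Fin k, (0 : Fin k → ℝ) i * x ^ (i.val + 1) : ℝ) : UnitAddCircle) = 1 := by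
    intro x
    have : (∑ i : Fin k, (0 : Fin k → ℝ) i * x ^ (i.val + 1)) = 0 := by simp
    rw [this]
    unfold e
    simp
  simp only [this]
  simp

noncomputable def vf (k : ℕ) (γ : Fin k → ℝ) : ℝ := ‖vI γ‖ ^ (2 * KN k)

theorem vf_cont (k : ℕ) : Continuous (vf k) := by
  unfold vf
  exact vI_cont.norm.pow _

theorem vf_nonneg (k : ℕ) (γ : Fin k → ℝ) : 0 ≤ vf k γ := by
  unfold vf
  positivity

theorem box_eq (k : ℕ) (G : ℝ) (hG : 0 ≤ G) : {γ : Fin k → ℝ | ∀ i, |γ i| ≤ G} =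
    Metric.closedBall (0 : Fin k → ℝ) G := by
  ext γ
  rw [Metric.mem_closedBall, dist_zero_right, pi_norm_le_iff_of_nonneg hG]
  rfl

theorem SI_eq (k : ℕ) (G : ℝ) (hG : 0 ≤ G) :
    SI k G = ∫ γ in Metric.closedBall (0 : Fin k → ℝ) G, vf k γ := by
  unfold SI
  rw [box_eq k G hG]
  rfl

theorem vf_int (k : ℕ) (G : ℝ) : IntegrableOn (vf k) (Metric.closedBall (0 : Fin k → ℝ) G) :=
  (vf_cont k).continuousOn.integrableOn_compact (isCompact_closedBall _ _)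

theorem SI_nonneg (k : ℕ) (G : ℝ) : 0 ≤ SI k G := by
  unfold SI
  exact integral_nonneg fun γ => by positivity

theorem SI_mono (k : ℕ) : Monotone (fun n : ℕ => SI k n) := by
  intro m n hmn
  simp only
  rw [SI_eq k m (Nat.cast_nonneg _), SI_eq k n (Nat.cast_nonneg _)]
  refine setIntegral_mono_set (vf_int k n) (Eventually.of_forall fun γ => vf_nonneg k γ) ?_
  exact (Metric.closedBall_subset_closedBall (by exact_mod_cast hmn)).eventuallyLE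

theorem SI_one_pos (k : ℕ) : 0 < SI k 1 := by
  rw [SI_eq k 1 zero_le_one]
  rw [setIntegral_pos_iff_support_of_nonneg_ae (Eventually.of_forall fun γ => vf_nonneg k γ)
    (vf_int k 1)]
  have ho : IsOpen (Function.support (vf k) ∩ Metric.ball (0 : Fin k → ℝ) 1) :=
    ((vf_cont k).isOpen_support).inter Metric.isOpen_ball
  have hne : (Function.support (vf k) ∩ Metric.ball (0 : Fin k → ℝ) 1).Nonempty := by
    refine ⟨0, ?_, Metric.mem_ball_self one_pos⟩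
    rw [Function.mem_support]
    unfold vf
    rw [vI_zero]
    simp
  refine lt_of_lt_of_le (ho.measure_pos _ hne) (measure_mono ?_)
  exact Set.inter_subset_inter_right _ Metric.ball_subset_closedBall

theorem st_nonneg (k q : ℕ) : 0 ≤ st k q := by
  unfold st
  exact sum_nonneg fun a _ => by positivity

theorem SS_eq (k Q : ℕ) : SS k Q = ∑ q ∈ range Q, st k (q + 1) := by
  unfold SS
  rw [range_eq_Ico, Finset.sum_Ico_add' (fun q => st k q) 0 Q 1]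
  rfl

theorem SS_mono (k : ℕ) : Monotone (SS k) := by
  intro m n hmn
  rw [SS_eq, SS_eq]
  exact sum_le_sum_of_subset_of_nonneg (range_mono hmn) fun q _ _ => st_nonneg _ _

theorem st_one (k : ℕ) : 1 ≤ st k 1 := by
  classical
  unfold st
  have h0 : (fun _ => 0 : Fin k → ℕ) ∈ Red k 1 := by
    unfold Red
    rw [mem_filter, Fintype.mem_piFinset]
    refine ⟨fun i => by simp, fun d hd _ => Nat.dvd_one.1 hd⟩
  have h1 : ‖Sq 1 (fun i : Fin k => (((fun _ => 0 : Fin k → ℕ) i : ℕ) : ℤ))‖ ^ (2 * KN k) = 1 := by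
    have : Sq 1 (fun i : Fin k => (((fun _ => 0 : Fin k → ℕ) i : ℕ) : ℤ)) = 1 := by
      unfold Sq e
      simp
    rw [this]
    simp
  calc (1 : ℝ) = _ := h1.symm
    _ ≤ _ := single_le_sum (f := fun a : Fin k → ℕ => ‖Sq 1 (fun i : Fin k => (a i : ℤ))‖ ^ (2 * KN k))
        (fun a _ => by positivity) h0

theorem pf_AS (hCP : M_CP) : M_AS := by
  intro k hk
  obtain ⟨u₀, hu₀, H⟩ := hCP k hk (1 / 4) (by norm_num) (by norm_num)
  set L : ℕ → ℝ := fun n => SS k n * SI k n with hL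
  have hSS0 : ∀ n, 0 ≤ SS k n := fun n => by
    rw [SS_eq]
    exact sum_nonneg fun q _ => st_nonneg _ _
  have hm : Monotone L := by
    intro m n hmn
    exact mul_le_mul (SS_mono k hmn) (SI_mono k hmn) (SI_nonneg _ _) (hSS0 n)
  have h0 : ∀ n, 0 ≤ L n := fun n => mul_nonneg (hSS0 n) (SI_nonneg _ _)
  -- self-comparison
  have hcore : ∀ u : ℝ, 0 < u → u ≤ u₀ → ∃ c C' : ℝ, 0 < c ∧ 0 ≤ C' ∧ ∀ N : ℕ, 1 ≤ N → ∀ Q : ℕ,
      L Q ≤ L ⌊(N : ℝ) ^ (u / 2)⌋₊ + C' * (N : ℝ) ^ (-c) := by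
    intro u hu huu
    obtain ⟨c₁, C₁, hc₁, h₁⟩ := H u hu huu
    obtain ⟨c₂, C₂, hc₂, h₂⟩ := H (u / 2) (by linarith) (by linarith)
    have hc : 0 < min c₁ c₂ := lt_min hc₁ hc₂
    obtain ⟨C', hC', h⟩ := core L hm h0 u (min c₁ c₂) (|C₁| + |C₂|) hu hc (by
      intro N hN
      have hNr : (0 : ℝ) < N := by exact_mod_cast hN
      have hN1 : (1 : ℝ) ≤ N := by exact_mod_cast hN
      have hK : (0 : ℝ) < (N : ℝ) ^ (KN k) := by positivity
      have e1 := h₁ N hN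
      have e2 := h₂ N hN
      have e3 : ∀ (c C : ℝ), min c₁ c₂ ≤ c → C * (N : ℝ) ^ ((KN k : ℝ) - c) ≤
          |C| * ((N : ℝ) ^ (KN k) * (N : ℝ) ^ (-(min c₁ c₂))) := by
        intro c C hcc
        rw [sub_eq_add_neg, Real.rpow_add hNr, Real.rpow_natCast]
        have : (N : ℝ) ^ (-c) ≤ (N : ℝ) ^ (-(min c₁ c₂)) :=
          Real.rpow_le_rpow_of_exponent_le hN1 (by linarith)
        calc C * ((N : ℝ) ^ (KN k) * (N : ℝ) ^ (-c)) ≤ |C| * ((N : ℝ) ^ (KN k) * (N : ℝ) ^ (-c)) :=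
              mul_le_mul_of_nonneg_right (le_abs_self C) (by positivity)
          _ ≤ _ := by gcongr
      have e4 := e3 c₁ C₁ (min_le_left _ _)
      have e5 := e3 c₂ C₂ (min_le_right _ _)
      have e6 := (abs_le.1 (e1.trans e4)).1
      have e7 := (abs_le.1 (e2.trans e5)).2
      have e8 : (N : ℝ) ^ (KN k) * (L ⌊(N : ℝ) ^ u⌋₊ - L ⌊(N : ℝ) ^ (u / 2)⌋₊) ≤
          (N : ℝ) ^ (KN k) * ((|C₁| + |C₂|) * (N : ℝ) ^ (-(min c₁ c₂))) := by
        rw [hL]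
        simp only
        linarith
      exact le_of_mul_le_mul_left e8 hK)
    exact ⟨min c₁ c₂, C', hc, hC', h⟩
  -- boundedness
  obtain ⟨c₀, C₀, hc₀, hC₀, hB⟩ := hcore u₀ hu₀ le_rfl
  set B : ℝ := L 1 + C₀ with hBdef
  have hLB : ∀ Q, L Q ≤ B := by
    intro Q
    have := hB 1 le_rfl Q
    simpa using this
  have hI1 := SI_one_pos k
  have hS1 : 1 ≤ SS k 1 := by
    rw [SS_eq]
    simpa using st_one k
  have hSSb : ∀ Q, SS k Q ≤ B / SI k 1 := by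
    intro Q
    rw [le_div_iff₀ hI1]
    have h1 : SS k Q ≤ SS k (Q + 1) := SS_mono k (Nat.le_succ Q)
    have h2 : SI k 1 ≤ SI k ((Q + 1 : ℕ) : ℝ) := by
      have := SI_mono k (show 1 ≤ Q + 1 by omega)
      simpa using this
    calc SS k Q * SI k 1 ≤ SS k (Q + 1) * SI k ((Q + 1 : ℕ) : ℝ) :=
          mul_le_mul h1 h2 hI1.le (hSS0 _)
      _ ≤ B := hLB (Q + 1)
  have hSIb : ∀ Q : ℕ, SI k Q ≤ B := by
    intro Q
    have h1 : 1 ≤ SS k (Q + 1) := hS1.trans (SS_mono k (by omega))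
    have h2 : SI k (Q : ℝ) ≤ SI k ((Q + 1 : ℕ) : ℝ) := SI_mono k (Nat.le_succ Q)
    have h3 := hLB (Q + 1)
    have h4 : SI k ((Q + 1 : ℕ) : ℝ) ≤ SS k (Q + 1) * SI k ((Q + 1 : ℕ) : ℝ) :=
      le_mul_of_one_le_left (SI_nonneg _ _) h1
    exact h2.trans (h4.trans h3)
  have hsum : Summable (fun q : ℕ => st k (q + 1)) := by
    refine summable_of_sum_range_le (c := B / SI k 1) (fun q => st_nonneg _ _) fun n => ?_
    rw [← SS_eq]
    exact hSSb n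
  have hcov : AECover (volume : Measure (Fin k → ℝ)) atTop
      (fun n : ℕ => Metric.closedBall (0 : Fin k → ℝ) (n : ℝ)) :=
    aecover_closedBall tendsto_natCast_atTop_atTop
  have hint : Integrable (vf k) := by
    refine hcov.integrable_of_integral_bounded_of_nonneg_ae B (fun n => vf_int k n)
      (Eventually.of_forall fun γ => vf_nonneg k γ) (Eventually.of_forall fun n => ?_)
    rw [← SI_eq k n (Nat.cast_nonneg _)]
    exact hSIb n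
  refine ⟨hsum, hint, ?_⟩
  -- the limit
  set Li : ℝ := (∑' q : ℕ, st k (q + 1)) * ∫ γ : Fin k → ℝ, ‖vI γ‖ ^ (2 * KN k) with hLi
  have hlim : Tendsto L atTop (𝓝 Li) := by
    refine Tendsto.mul ?_ ?_
    · have := hsum.hasSum.tendsto_sum_nat
      refine this.congr fun n => ?_
      rw [SS_eq]
    · have := hcov.integral_tendsto_of_countably_generated hint
      refine this.congr fun n => ?_
      rw [SI_eq k n (Nat.cast_nonneg _)]
  have hle : ∀ Q, L Q ≤ Li := fun Q => hm.ge_of_tendsto hlim Q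
  intro δ hδ hδ2
  obtain ⟨u₁, hu₁, H₁⟩ := hCP k hk δ hδ hδ2
  have hu : 0 < min u₀ (2 * u₁) := lt_min hu₀ (by linarith)
  obtain ⟨c, C', hc, hC', h⟩ := hcore (min u₀ (2 * u₁)) hu (min_le_left _ _)
  obtain ⟨c', C'', hc', h'⟩ := H₁ (min u₀ (2 * u₁) / 2) (by linarith)
    (by linarith [min_le_right u₀ (2 * u₁)])
  refine ⟨min c c', |C''| + C', lt_min hc hc', ?_⟩
  intro N hN
  have hNr : (0 : ℝ) < N := by exact_mod_cast hN
  have hN1 : (1 : ℝ) ≤ N := by exact_mod_cast hN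
  have hK : (0 : ℝ) < (N : ℝ) ^ (KN k) := by positivity
  set A : ℝ := ∫ a in {a : X k | (N : ℝ) ^ (1 / 2 + δ) ≤ ‖f N a‖}, ‖f N a‖ ^ (2 * KN k) with hA
  set LN : ℝ := L ⌊(N : ℝ) ^ (min u₀ (2 * u₁) / 2)⌋₊ with hLN
  have g1 : |A - (N : ℝ) ^ (KN k) * LN| ≤ C'' * (N : ℝ) ^ ((KN k : ℝ) - c') := h' N hN
  have g2 : Li ≤ LN + C' * (N : ℝ) ^ (-c) := le_of_tendsto' hlim fun Q => h N hN Q
  have g3 : LN ≤ Li := hle _
  have g4 : |(N : ℝ) ^ (KN k) * LN - (N : ℝ) ^ (KN k) * Li| ≤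
      (N : ℝ) ^ (KN k) * (C' * (N : ℝ) ^ (-c)) := by
    rw [← mul_sub, abs_mul, abs_of_pos hK]
    refine mul_le_mul_of_nonneg_left ?_ hK.le
    rw [abs_le]
    constructor
    · linarith
    · have : 0 ≤ C' * (N : ℝ) ^ (-c) := by positivity
      linarith
  have g5 : (N : ℝ) ^ (-c) ≤ (N : ℝ) ^ (-(min c c')) :=
    Real.rpow_le_rpow_of_exponent_le hN1 (by linarith [min_le_left c c'])
  have g6 : (N : ℝ) ^ (-c') ≤ (N : ℝ) ^ (-(min c c')) :=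
    Real.rpow_le_rpow_of_exponent_le hN1 (by linarith [min_le_right c c'])
  have g7 : C'' * (N : ℝ) ^ ((KN k : ℝ) - c') ≤
      |C''| * ((N : ℝ) ^ (KN k) * (N : ℝ) ^ (-(min c c'))) := by
    rw [sub_eq_add_neg, Real.rpow_add hNr, Real.rpow_natCast]
    calc C'' * ((N : ℝ) ^ (KN k) * (N : ℝ) ^ (-c')) ≤
          |C''| * ((N : ℝ) ^ (KN k) * (N : ℝ) ^ (-c')) :=
          mul_le_mul_of_nonneg_right (le_abs_self _) (by positivity)
      _ ≤ _ := by gcongr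
  have g8 : (N : ℝ) ^ (KN k) * (C' * (N : ℝ) ^ (-c)) ≤
      C' * ((N : ℝ) ^ (KN k) * (N : ℝ) ^ (-(min c c'))) := by
    calc (N : ℝ) ^ (KN k) * (C' * (N : ℝ) ^ (-c)) =
          C' * ((N : ℝ) ^ (KN k) * (N : ℝ) ^ (-c)) := by ring
      _ ≤ _ := by gcongr
  have g9 : (N : ℝ) ^ ((KN k : ℝ) - min c c') = (N : ℝ) ^ (KN k) * (N : ℝ) ^ (-(min c c')) := by
    rw [sub_eq_add_neg, Real.rpow_add hNr, Real.rpow_natCast]
  rw [g9]
  have g10 : |A - (N : ℝ) ^ (KN k) * Li| ≤ |A - (N : ℝ) ^ (KN k) * LN| +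
      |(N : ℝ) ^ (KN k) * LN - (N : ℝ) ^ (KN k) * Li| := abs_sub_le _ _ _
  calc |A - (N : ℝ) ^ (KN k) * Li| ≤ _ := g10
    _ ≤ |C''| * ((N : ℝ) ^ (KN k) * (N : ℝ) ^ (-(min c c'))) +
        C' * ((N : ℝ) ^ (KN k) * (N : ℝ) ^ (-(min c c'))) :=
        add_le_add (g1.trans g7) (g4.trans g8)
    _ = _ := by ring

end Pool.Agent.H61.LVP
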