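import Pool.Agent.H50.LV.Targets

/-!
# Row SPL of lve_modules: the first derivative test on an interval where the derivative is monotone
-/

set_option autoImplicit false

open Finset MeasureTheory
open scoped Polynomial

namespace Pool.Agent.H61.LVP

open Pool.Agent.H24.CL Pool.Agent.H24.LV Pool.Agent.H50.LV

theorem e_ee (x : ℝ) : e ((x : ℝ) : UnitAddCircle) = Pool.Agent.H98.KS.ee x := by
  unfold e Pool.Agent.H98.KS.ee
  rw [AddCircle.toCircle_apply_mk, Circle.coe_exp]
  congr 1
  push_cast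
  ring

/-- cutting an interval at a value of a monotone function -/
theorem cut {g : ℝ → ℝ} {a b : ℝ} (hab : a ≤ b) (hc : ContinuousOn g (Set.Icc a b))
    (hm : MonotoneOn g (Set.Icc a b)) (ν : ℝ) : ∃ p, a ≤ p ∧ p ≤ b ∧
      (a < p → ∀ y ∈ Set.Icc a p, g y ≤ ν) ∧ (p < b → ∀ y ∈ Set.Icc p b, ν ≤ g y) := by
  by_cases h1 : ν ≤ g a
  · refine ⟨a, le_rfl, hab, fun h => absurd h (lt_irrefl _), fun _ y hy => ?_⟩
    exact h1.trans (hm ⟨le_rfl, hab⟩ hy hy.1)
  by_cases h2 : g b ≤ ν
  · refine ⟨b, hab, le_rfl, fun _ y hy => ?_, fun h => absurd h (lt_irrefl _)⟩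
    exact (hm hy ⟨hab, le_rfl⟩ hy.2).trans h2
  push Not at h1 h2
  obtain ⟨p, hp, hpv⟩ := intermediate_value_Icc hab hc ⟨h1.le, h2.le⟩
  refine ⟨p, hp.1, hp.2, fun _ y hy => ?_, fun _ y hy => ?_⟩
  · rw [← hpv]
    exact hm ⟨hy.1, hy.2.trans hp.2⟩ hp hy.2
  · rw [← hpv]
    exact hm hp ⟨hp.1.trans hy.1, hy.2⟩ hy.1

theorem OP_int (P : ℝ[X]) (t a b : ℝ) :
    IntervalIntegrable (fun y => e ((t * y + P.eval y : ℝ) : UnitAddCircle)) volume a b := by
  refine Continuous.intervalIntegrable ?_ _ _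
  simp only [e_ee]
  refine Pool.Agent.H15.KS.continuous_ee'.comp ?_
  exact (continuous_const.mul continuous_id).add P.continuous

theorem spl_pos (P : ℝ[X]) (t a b μ : ℝ) (hab : a ≤ b) (hμ : 0 < μ)
    (h : ∀ y ∈ Set.Icc a b, 0 ≤ (DD P).eval y) :
    ∃ p q : ℝ, a ≤ p ∧ p ≤ q ∧ q ≤ b ∧
    (p < q → ∀ y ∈ Set.Icc p q, |t + (Polynomial.derivative P).eval y| ≤ μ) ∧
    ‖OP P t a b‖ ≤ 2 / μ + (q - p) := by
  set g : ℝ → ℝ := fun y => t + (Polynomial.derivative P).eval y with hg
  have hd1 : ∀ y, HasDerivAt (fun y => t * y + P.eval y) (g y) y := by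
    intro y
    have := ((hasDerivAt_id y).const_mul t).add (P.hasDerivAt y)
    rw [mul_one] at this
    exact this
  have hd2 : ∀ y, HasDerivAt g ((DD P).eval y) y := by
    intro y
    have := (hasDerivAt_const y t).add ((Polynomial.derivative P).hasDerivAt y)
    rw [zero_add] at this
    exact this
  have hgc : Continuous g := continuous_const.add (Polynomial.derivative P).continuous
  have hgm : MonotoneOn g (Set.Icc a b) := by
    refine monotoneOn_of_deriv_nonneg (convex_Icc a b) hgc.continuousOn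
      (fun y _ => (hd2 y).differentiableAt.differentiableWithinAt) fun y hy => ?_
    rw [(hd2 y).deriv]
    exact h y (interior_subset hy)
  obtain ⟨p, hap, hpb, hp1, hp2⟩ := cut hab hgc.continuousOn hgm (-μ)
  obtain ⟨q, hpq, hqb, hq1, hq2⟩ := cut hpb hgc.continuousOn
    (hgm.mono (Set.Icc_subset_Icc_left hap)) μ
  have hDDc : Continuous fun y => (DD P).eval y := (DD P).continuous
  refine ⟨p, q, hap, hpq, hqb, ?_, ?_⟩
  · intro hlt y hy
    have e1 := hp2 (lt_of_lt_of_le hlt hqb) y ⟨hy.1, hy.2.trans hqb⟩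
    have e2 := hq1 hlt y hy
    exact abs_le.2 ⟨e1, e2⟩
  · have i1 : ‖∫ y in a..p, e ((t * y + P.eval y : ℝ) : UnitAddCircle)‖ ≤ 1 / μ := by
      rcases hap.eq_or_lt with h1 | h1
      · rw [← h1, intervalIntegral.integral_same, norm_zero]
        positivity
      · simp only [e_ee]
        exact Pool.Agent.H15.KS.vdc1 _ g (fun y => (DD P).eval y) a p μ hap hμ
          (fun y _ => hd1 y) (fun y _ => hd2 y) (fun y hy => h y ⟨hy.1, hy.2.trans hpb⟩)
          hDDc.continuousOn (Or.inr (hp1 h1))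
    have i3 : ‖∫ y in q..b, e ((t * y + P.eval y : ℝ) : UnitAddCircle)‖ ≤ 1 / μ := by
      rcases hqb.eq_or_lt with h1 | h1
      · rw [← h1, intervalIntegral.integral_same, norm_zero]
        positivity
      · simp only [e_ee]
        exact Pool.Agent.H15.KS.vdc1 _ g (fun y => (DD P).eval y) q b μ hqb hμ
          (fun y _ => hd1 y) (fun y _ => hd2 y)
          (fun y hy => h y ⟨(hap.trans hpq).trans hy.1, hy.2⟩)
          hDDc.continuousOn (Or.inl (hq2 h1))
    have i2 : ‖∫ y in p..q, e ((t * y + P.eval y : ℝ) : UnitAddCircle)‖ ≤ q - p := by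
      have := intervalIntegral.norm_integral_le_of_norm_le_const (a := p) (b := q) (C := 1)
        (f := fun y => e ((t * y + P.eval y : ℝ) : UnitAddCircle))
        (fun y _ => by rw [e_ee, Pool.Agent.H15.KS.norm_ee])
      rw [one_mul, abs_of_nonneg (by linarith)] at this
      exact this
    have hs : OP P t a b = (∫ y in a..p, e ((t * y + P.eval y : ℝ) : UnitAddCircle)) +
        (∫ y in p..q, e ((t * y + P.eval y : ℝ) : UnitAddCircle)) +
        ∫ y in q..b, e ((t * y + P.eval y : ℝ) : UnitAddCircle) := by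
      rw [intervalIntegral.integral_add_adjacent_intervals (OP_int P t a p) (OP_int P t p q),
        intervalIntegral.integral_add_adjacent_intervals (OP_int P t a q) (OP_int P t q b)]
      rfl
    rw [hs]
    refine norm_add₃_le.trans ?_
    have : 2 / μ = 1 / μ + 1 / μ := by ring
    linarith

theorem OP_neg (P : ℝ[X]) (t a b : ℝ) : ‖OP (-P) (-t) a b‖ = ‖OP P t a b‖ := by
  have : OP (-P) (-t) a b = (starRingEnd ℂ) (OP P t a b) := by
    have h : (fun y : ℝ => e ((-t * y + (-P).eval y : ℝ) : UnitAddCircle)) =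
        fun y : ℝ => (starRingEnd ℂ) (e ((t * y + P.eval y : ℝ) : UnitAddCircle)) := by
      funext y
      rw [e_ee, e_ee, ← Pool.Agent.H15.KS.ee_neg]
      congr 1
      rw [Polynomial.eval_neg]
      ring
    unfold OP
    rw [h]
    unfold intervalIntegral
    rw [integral_conj, integral_conj, map_sub]
  rw [this, RCLike.norm_conj]

theorem pf_SPL : T_SPL := by
  intro P t a b μ hab hμ hS
  rcases hS with h | h
  · exact spl_pos P t a b μ hab hμ h
  · obtain ⟨p, q, h1, h2, h3, h4, h5⟩ := spl_pos (-P) (-t) a b μ hab hμ (by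
      intro y hy
      have := h y hy
      unfold DD at this ⊢
      rw [Polynomial.derivative_neg, Polynomial.derivative_neg, Polynomial.eval_neg]
      linarith)
    refine ⟨p, q, h1, h2, h3, ?_, ?_⟩
    · intro hlt y hy
      have := h4 hlt y hy
      rw [Polynomial.derivative_neg, Polynomial.eval_neg, ← neg_add, abs_neg] at this
      exact this
    · rw [OP_neg] at h5
      exact h5

end Pool.Agent.H61.LVP
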