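import Pool.Agent.H31.LV.Basic
import Pool.Agent.H31.LV.Targets

/-!
# Row wWE of lvp_modules: the centre of a rich star is seen by the functional
-/

set_option autoImplicit false

open Finset MeasureTheory

namespace Pool.Agent.H61.LVP

open Pool.Agent.H24.CL Pool.Agent.H24.LV Pool.Agent.H31.LV

theorem phi_one {k : ℕ} (b : X k) : phi 1 0 b = b := by
  funext i
  show (∑ j : Fin k, (Nat.choose (j.val + 1) (i.val + 1) * 0 ^ (j.val - i.val) *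
    1 ^ (i.val + 1)) • b j) = b i
  rw [Finset.sum_eq_single i]
  · simp
  · intro j _ hj
    rcases Nat.lt_or_ge j.val i.val with h | h
    · rw [Nat.choose_eq_zero_of_lt (by omega)]
      simp
    · have h1 : j.val ≠ i.val := fun h2 => hj (Fin.ext h2)
      have h2 : j.val - i.val ≠ 0 := by omega
      rw [zero_pow h2]
      simp
  · intro h
    exact absurd (mem_univ i) h

theorem VD_ge {k D N : ℕ} (b : X k) {M : ℝ} (hM : 0 < M) {kap : ℝ}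
    (h : kap ≤ hd D {v : X k | M ^ (-(1 / 2 : ℝ)) / 8 ≤ ‖u N v‖} b) :
    kap / (64 * M) ≤ VD D N b := by
  classical
  unfold VD
  have hM2 : (M ^ (-(1 / 2 : ℝ)) / 8) ^ 2 = 1 / (64 * M) := by
    rw [div_pow, ← Real.rpow_natCast, ← Real.rpow_mul hM.le]
    norm_num
    rw [Real.rpow_neg_one]
    field_simp
  have h1 : ((pos D {v : X k | M ^ (-(1 / 2 : ℝ)) / 8 ≤ ‖u N v‖} b).card : ℝ) * (1 / (64 * M)) ≤
      ∑ x ∈ range D, ‖u N (phi D x b)‖ ^ 2 := by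
    rw [← hM2, ← nsmul_eq_mul]
    refine (card_nsmul_le_sum _ (fun x => ‖u N (phi D x b)‖ ^ 2) _ ?_).trans
      (sum_le_sum_of_subset_of_nonneg (s := pos D {v : X k | M ^ (-(1 / 2 : ℝ)) / 8 ≤ ‖u N v‖} b)
        ?_ fun x _ _ => by positivity)
    · intro x hx
      unfold pos at hx
      have h2 : M ^ (-(1 / 2 : ℝ)) / 8 ≤ ‖u N (phi D x b)‖ := (mem_filter.1 hx).2
      exact pow_le_pow_left₀ (by positivity) h2 2
    · unfold pos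
      exact filter_subset _ _
  have h3 : hd D {v : X k | M ^ (-(1 / 2 : ℝ)) / 8 ≤ ‖u N v‖} b =
      ((pos D {v : X k | M ^ (-(1 / 2 : ℝ)) / 8 ≤ ‖u N v‖} b).card : ℝ) / D := rfl
  rw [h3] at h
  calc kap / (64 * M) ≤ ((pos D {v : X k | M ^ (-(1 / 2 : ℝ)) / 8 ≤ ‖u N v‖} b).card : ℝ) / D /
        (64 * M) := by gcongr
    _ = (1 / (D : ℝ)) * (((pos D {v : X k | M ^ (-(1 / 2 : ℝ)) / 8 ≤ ‖u N v‖} b).card : ℝ) *
        (1 / (64 * M))) := by ring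
    _ ≤ _ := by gcongr

theorem Near_mono {k Q : ℕ} {E E' Z : ℝ} {c : ℕ → ℝ} (hE : E ≤ E') (hZ : 0 ≤ Z)
    (h : Near k Q E Z c) : Near k Q E' Z c := by
  intro j h1 h2
  obtain ⟨a, ha⟩ := h j h1 h2
  refine ⟨a, ha.trans ?_⟩
  gcongr

/-- splitting the primes -/
theorem split {S : Finset ℕ} (hS : ∀ p ∈ S, p.Prime) (q : ℕ) :
    ∃ S₁ ⊆ S, ∃ D₂ : ℕ, DS S = DS S₁ * D₂ ∧ D₂ ∣ q ∧ Nat.Coprime q (DS S₁) ∧ 0 < DS S₁ ∧
      0 < D₂ := by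
  classical
  refine ⟨S \ S.filter (fun p => p ∣ q), sdiff_subset, DS (S.filter (fun p => p ∣ q)), ?_, ?_, ?_,
    ?_, ?_⟩
  · unfold DS
    exact (prod_sdiff (filter_subset _ _)).symm
  · unfold DS
    refine Finset.prod_primes_dvd q ?_ ?_
    · intro p hp
      exact (hS p (mem_filter.1 hp).1).prime
    · intro p hp
      exact (mem_filter.1 hp).2
  · unfold DS
    refine Nat.Coprime.prod_right fun p hp => ?_
    rw [mem_sdiff, mem_filter] at hp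
    rw [Nat.coprime_comm, (hS p hp.1).coprime_iff_not_dvd]
    intro h
    exact hp.2 ⟨hp.1, h⟩
  · unfold DS
    exact Finset.prod_pos fun p hp => (hS p (mem_sdiff.1 hp).1).pos
  · unfold DS
    exact Finset.prod_pos fun p hp => (hS p (mem_filter.1 hp).1).pos

theorem det (hCO : L_CO) (hRU : W_RU) {k : ℕ}
    {C₁ : ℝ} (h1 : ∀ (D N : ℕ) (b : X k) (c : ℕ → ℝ) (M : ℝ), 1 ≤ D → Lft b c →
      1 ≤ M → 16 * M ≤ N → 1 / M ≤ VD D N b → ∃ q : ℕ, 1 ≤ q ∧ (q : ℝ) ≤ C₁ * M ^ C₁ * N ∧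
        Near k (q * D) (C₁ * M ^ C₁) ((D : ℝ) * N) c)
    {C₂ : ℝ} (h2 : ∀ (q D G N x : ℕ) (c : ℕ → ℝ) (R : ℝ), 1 ≤ q → 1 ≤ D → 1 ≤ G →
      1 ≤ N → x < G → 0 ≤ R → Near k (q * (D * G)) R (((D * G : ℕ) : ℝ) * N) c →
        Near k (q * D) (C₂ * R) ((D : ℝ) * N) (phr k G x c))
    {C₃ : ℝ} (hC₃ : 1 ≤ C₃) (h3 : ∀ (q D N x : ℕ) (b : X k) (c : ℕ → ℝ) (R : ℝ), Lft b c →
      1 ≤ q → 1 ≤ D → 1 ≤ N → x < D → Nat.Coprime q D → 1 ≤ R → (q : ℝ) ≤ R →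
      Near k (q * D) R ((D : ℝ) * N) c →
      ∃ (f : Fin k → ℤ) (η : Fin k → ℝ) (τ ξ : ℝ), -1 ≤ τ ∧ τ ≤ 0 ∧
      (∀ i : Fin k, i.val ≠ 0 → phi D x b i = (((f i : ℝ) / q + η i : ℝ) : UnitAddCircle)) ∧
      (∀ i : Fin k, i.val ≠ 0 → |η i| ≤ C₃ * R / (N : ℝ) ^ (i.val + 1)) ∧
      (∀ i : Fin k, i.val = 0 → phi D x b i = (ξ : UnitAddCircle)) ∧
      VD D N b ≤ VF q f (N : ℝ) η τ ξ + C₃ * R ^ 2 / D)
    {M κ Mp R₀ R M₂ : ℝ} {N : ℕ} {S : Finset ℕ} {b : X k} {x : ℕ} (hM : 0 < M)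
    (hMp1 : 1 ≤ Mp) (hMp : 1 / Mp ≤ κ / (64 * M)) (h16 : 16 * Mp ≤ N)
    (hC₁ : 0 ≤ C₁) (hR1 : 1 ≤ R₀) (hRq : C₁ * Mp ^ C₁ * N ≤ R₀) (hRE : C₂ * (C₁ * Mp ^ C₁) ≤ R₀)
    (hbig : 2 * Mp * C₃ * R₀ ^ 3 ≤ (DS S : ℝ)) (hM₂ : 2 * Mp ≤ M₂) (hR : C₃ * R₀ ≤ R)
    (hS : ∀ p ∈ S, p.Prime) (hx : x < DS S)
    (hrich : Rich S {v : X k | M ^ (-(1 / 2 : ℝ)) / 8 ≤ ‖u N v‖} κ b x) :
    phi (DS S) x b ∈ WS k N R M₂ := by
  have hDS : 0 < DS S := by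
    unfold DS
    exact Finset.prod_pos fun p hp => (hS p hp).pos
  have hN1 : 1 ≤ N := by
    have : (1 : ℝ) ≤ N := by linarith
    exact_mod_cast this
  have hNr : (0 : ℝ) < N := by exact_mod_cast hN1
  have hMp0 : 0 < Mp := by linarith
  -- all of `S`
  obtain ⟨c, hc⟩ := ex_Lft b
  have hV0 : 1 / Mp ≤ VD (DS S) N b := by
    have := hrich S subset_rfl
    rw [Nat.div_self hDS, Nat.mod_one, phi_one] at this
    exact hMp.trans (VD_ge b hM this)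
  obtain ⟨q, hq1, hqN, hnear⟩ := h1 (DS S) N b c Mp hDS hc hMp1 h16 hV0
  -- the primes which do not divide `q`
  obtain ⟨S₁, hS₁, D₂, hD, hD₂q, hcop, hD₁0, hD₂0⟩ := split hS q
  set D₁ := DS S₁ with hD₁
  have hV1 : 1 / Mp ≤ VD D₁ N (phi D₂ (x % D₂) b) := by
    have := hrich S₁ hS₁
    rw [hD, ← hD₁, Nat.mul_div_cancel_left _ hD₁0] at this
    exact hMp.trans (VD_ge _ hM this)
  have hMC : 0 ≤ C₁ * Mp ^ C₁ := mul_nonneg hC₁ (Real.rpow_nonneg hMp0.le _)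
  have hnear2 : Near k (q * D₁) (C₂ * (C₁ * Mp ^ C₁)) ((D₁ : ℝ) * N) (phr k D₂ (x % D₂) c) := by
    refine h2 q D₁ D₂ N (x % D₂) c _ hq1 hD₁0 hD₂0 hN1 (Nat.mod_lt _ hD₂0) hMC ?_
    rw [hD] at hnear
    exact hnear
  have hqR : (q : ℝ) ≤ R₀ := hqN.trans hRq
  have hxD : x / D₂ < D₁ := by
    rw [Nat.div_lt_iff_lt_mul hD₂0]
    rw [hD] at hx
    exact hx
  obtain ⟨f, η, τ, ξ, hτ1, hτ0, hw, hη, hw0, hVF⟩ := h3 q D₁ N (x / D₂) (phi D₂ (x % D₂) b)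
    (phr k D₂ (x % D₂) c) R₀ (Lft_phr hc D₂ (x % D₂)) hq1 hD₁0 hN1 hxD hcop hR1 hqR
    (Near_mono hRE (by positivity) hnear2)
  have hphi : phi D₁ (x / D₂) (phi D₂ (x % D₂) b) = phi (DS S) x b := by
    rw [hCO.1 k D₁ D₂ (x / D₂) (x % D₂) b, hD, Nat.mod_add_div]
  rw [hphi] at hw hw0
  -- the functional is large
  have hD₁big : (DS S : ℝ) ≤ D₁ * R₀ := by
    rw [hD]
    push_cast
    have h4 : (D₂ : ℝ) ≤ q := by exact_mod_cast Nat.le_of_dvd hq1 hD₂q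
    have h5 : (0 : ℝ) ≤ D₁ := Nat.cast_nonneg _
    exact mul_le_mul_of_nonneg_left (h4.trans hqR) h5
  have hD₁r : (0 : ℝ) < D₁ := by exact_mod_cast hD₁0
  have hsm : C₃ * R₀ ^ 2 / D₁ ≤ 1 / (2 * Mp) := by
    rw [div_le_div_iff₀ hD₁r (by positivity)]
    have h6 : 2 * Mp * C₃ * R₀ ^ 2 * R₀ ≤ D₁ * R₀ := by
      calc 2 * Mp * C₃ * R₀ ^ 2 * R₀ = 2 * Mp * C₃ * R₀ ^ 3 := by ring
        _ ≤ _ := hbig.trans hD₁big
    have h7 := le_of_mul_le_mul_right h6 (by linarith)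
    linarith
  have hVFge : 1 / M₂ ≤ VF q f (N : ℝ) η τ ξ := by
    have h8 : 1 / M₂ ≤ 1 / (2 * Mp) := one_div_le_one_div_of_le (by positivity) hM₂
    have h9 : 1 / Mp = 1 / (2 * Mp) + 1 / (2 * Mp) := by
      field_simp
      norm_num
    linarith
  obtain ⟨q', f', hq'1, hq'q, hfrac, hred, hVFe⟩ := hRU k q f hq1
  rw [hVFe] at hVFge
  have hR₀R : R₀ ≤ R := by
    refine le_trans ?_ hR
    exact le_mul_of_one_le_left (by linarith) hC₃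
  refine ⟨q', f', η, τ, ξ, hq'1, ?_, ?_, hred, ?_, hτ1, hτ0, hw0, hVFge⟩
  · have : (q' : ℝ) ≤ q := by exact_mod_cast hq'q
    linarith
  · intro i hi
    rw [hw i hi, hfrac i hi]
  · intro i hi
    refine (hη i hi).trans ?_
    have e1 : (N : ℝ) ^ (-((i.val : ℝ) + 1)) = ((N : ℝ) ^ (i.val + 1))⁻¹ := by
      rw [Real.rpow_neg hNr.le]
      congr 1
      rw [← Real.rpow_natCast]
      congr 1
      push_cast
      ring
    rw [e1, div_eq_mul_inv]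
    exact mul_le_mul_of_nonneg_right hR (by positivity)

theorem pf_wWE (hCO : L_CO) (hDL : W_DL) (hTF : W_TF) (hEQ : W_EQ) (hRU : W_RU) : E_WE := by
  intro k hk δ C₄ hδ hδ1 hC₄
  obtain ⟨C₁, hC₁, h1⟩ := hDL k (by omega)
  obtain ⟨C₂, hC₂, h2⟩ := hTF k
  obtain ⟨C₃, hC₃, h3⟩ := hEQ k (by omega)
  set A : ℝ := 2 * C₁ + C₄ + 1 with hA
  refine ⟨3 * A + 4, A + 1, δ / 4, by linarith, by linarith, by linarith, ?_⟩
  intro σ hσ hσδ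
  have hσ1 : σ ≤ 1 := by linarith
  -- the threshold
  set T : ℝ := C₂ * C₁ * 64 ^ C₁ with hT
  have hT1 : 1 ≤ (64 : ℝ) ^ C₁ := Real.one_le_rpow (by norm_num) (by linarith)
  have hT2 : 1 ≤ T := by
    have : 1 ≤ C₂ * C₁ := by nlinarith
    nlinarith
  obtain ⟨M₀, hM₀⟩ : ∃ M₀ : ℝ, ∀ M : ℝ, M₀ ≤ M → 1 ≤ M ∧ T ≤ M ∧ C₃ ≤ M ∧ 128 * C₃ ≤ M ∧
      128 ≤ M ^ σ ∧ 1024 ≤ M ^ (δ / 4) := by
    have e1 := Filter.eventually_ge_atTop (1 : ℝ)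
    have e2 := Filter.eventually_ge_atTop T
    have e3 := Filter.eventually_ge_atTop C₃
    have e4 := Filter.eventually_ge_atTop (128 * C₃)
    have e5 := (tendsto_rpow_atTop hσ).eventually_ge_atTop 128
    have e6 := (tendsto_rpow_atTop (by linarith : 0 < δ / 4)).eventually_ge_atTop 1024
    obtain ⟨M₀, h⟩ := Filter.eventually_atTop.1 (e1.and (e2.and (e3.and (e4.and (e5.and e6)))))
    exact ⟨M₀, h⟩
  refine ⟨max M₀ 1, le_max_right _ _, ?_⟩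
  intro M N S b x hM0 hNlo hNhi hS hDS hx hrich
  obtain ⟨hM1, hMT, hMC₃, hM128, hMσ, hMδ⟩ := hM₀ M ((le_max_left _ _).trans hM0)
  have hMp : 0 < M := by linarith
  set Mp : ℝ := 64 * M ^ (1 + σ) with hMpdef
  have hrp : ∀ y z : ℝ, y ≤ z → M ^ y ≤ M ^ z := fun y z h =>
    Real.rpow_le_rpow_of_exponent_le hM1 h
  have hMs1 : 1 ≤ M ^ (1 + σ) := Real.one_le_rpow hM1 (by linarith)
  have hMp1 : 1 ≤ Mp := by linarith
  -- `R₀ = M^A`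
  have hMpC : Mp ^ C₁ ≤ 64 ^ C₁ * M ^ (2 * C₁) := by
    rw [hMpdef, Real.mul_rpow (by norm_num) (by positivity), ← Real.rpow_mul hMp.le]
    gcongr
    linarith
  have hRE : C₂ * (C₁ * Mp ^ C₁) ≤ M ^ (2 * C₁ + 1) := by
    calc C₂ * (C₁ * Mp ^ C₁) ≤ C₂ * (C₁ * (64 ^ C₁ * M ^ (2 * C₁))) := by gcongr
      _ = T * M ^ (2 * C₁) := by rw [hT]; ring
      _ ≤ M * M ^ (2 * C₁) := by gcongr
      _ = M ^ (2 * C₁ + 1) := by
        rw [Real.rpow_add hMp, Real.rpow_one]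
        ring
  have hRq' : C₁ * Mp ^ C₁ ≤ M ^ (2 * C₁ + 1) := by
    refine le_trans ?_ hRE
    refine le_mul_of_one_le_left (by positivity) hC₂
  refine det hCO hRU h1 h2 hC₃ h3 (κ := M ^ (-σ)) (Mp := Mp) (R₀ := M ^ A) hMp hMp1 ?_ ?_
    (by linarith) (Real.one_le_rpow hM1 (by linarith)) ?_ ?_ ?_ ?_ ?_ hS hx hrich
  · rw [hMpdef, Real.rpow_add hMp, Real.rpow_one, Real.rpow_neg hMp.le]
    refine le_of_eq ?_
    field_simp
  · calc 16 * Mp = 1024 * M ^ (1 + σ) := by rw [hMpdef]; ring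
      _ ≤ M ^ (δ / 4) * M ^ (1 + σ) := by gcongr
      _ = M ^ (δ / 4 + (1 + σ)) := (Real.rpow_add hMp _ _).symm
      _ ≤ M ^ (1 + δ / 2) := hrp _ _ (by linarith)
      _ ≤ N := hNlo
  · calc C₁ * Mp ^ C₁ * N ≤ M ^ (2 * C₁ + 1) * M ^ C₄ := by gcongr
      _ = M ^ A := by
        rw [← Real.rpow_add hMp]
        congr 1
        rw [hA]
        ring
  · exact hRE.trans (hrp _ _ (by linarith))
  · have e1 : (M ^ A) ^ 3 = M ^ (3 * A) := by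
      rw [← Real.rpow_natCast, ← Real.rpow_mul hMp.le]
      congr 1
      push_cast
      ring
    rw [e1]
    calc 2 * Mp * C₃ * M ^ (3 * A) = (128 * C₃) * (M ^ (1 + σ) * M ^ (3 * A)) := by
          rw [hMpdef]; ring
      _ ≤ M * (M ^ (1 + σ) * M ^ (3 * A)) := by gcongr
      _ = M ^ (1 + (1 + σ + 3 * A)) := by
        rw [Real.rpow_add hMp 1 (1 + σ + 3 * A), Real.rpow_add hMp (1 + σ) (3 * A), Real.rpow_one]
      _ ≤ M ^ (3 * A + 4) := hrp _ _ (by linarith)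
      _ ≤ DS S := hDS
  · calc 2 * Mp = 128 * M ^ (1 + σ) := by rw [hMpdef]; ring
      _ ≤ M ^ σ * M ^ (1 + σ) := by gcongr
      _ = M ^ (1 + 2 * σ) := by
        rw [← Real.rpow_add hMp]
        congr 1
        ring
  · calc C₃ * M ^ A ≤ M * M ^ A := by gcongr
      _ = M ^ (A + 1) := by
        rw [Real.rpow_add hMp A 1, Real.rpow_one]
        ring

end Pool.Agent.H61.LVP
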